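import Pool.Agent.H858FC.Example

/-!
# An h-convex drawing of `K_9` that is not f-convex while all its `K_8`-subdrawings are

The definitions (`S2`, `IsArc`, `IsTransversalCrossing`, `GoodDrawing`, `IsComponent`, `image`,
`IsSide`, `IsConvexSide`, `IsConvex`, `IsHConvex`, `IsFace`, `IsFConvex`, `restrict`) are in
`Pool.Agent.H858FC.Defs`.

The drawing is the geodesic drawing on the sphere with vertices in the directions
`(-1,2,0), (-1,-2,2), (2,1,0), (2,1,1), (1,-1,-1), (1,-1,-2), (-1,0,-1), (-1,2,-1), (2,0,1)`:
every point of the sphere is in a spherical triangle `abc` such that some vertex `x` is beyond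
exactly one edge of `abc`; but this fails when any one of the nine vertices is deleted.
-/

set_option autoImplicit false

namespace Pool.Agent.Results.MP_406ab0_co.NineVertices

open Pool.Agent.H858FC

/-- There is an h-convex good drawing of `K_9` on the sphere that is not f-convex although `D[J]`
is f-convex for every `K_8`-subgraph `J`.  So it is not true that for all `n` an h-convex drawing
`D` of `K_n` is f-convex if and only if `D[J]` is f-convex for every `K_8`-subgraph `J`. -/
theorem result :
    (∃ D : GoodDrawing (Fin 9), D.IsHConvex ∧ ¬ D.IsFConvex ∧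
      ∀ J : Finset (Fin 9), J.card = 8 → (D.restrict J).IsFConvex) ∧
    ¬ (∀ (n : ℕ) (D : GoodDrawing (Fin n)), D.IsHConvex →
      (D.IsFConvex ↔ ∀ J : Finset (Fin n), J.card = 8 → (D.restrict J).IsFConvex)) :=
  ⟨⟨D9, D9_hconvex, D9_not_fconvex, D9_sub⟩,
    fun h => D9_not_fconvex ((h 9 D9 D9_hconvex).2 D9_sub)⟩

end Pool.Agent.Results.MP_406ab0_co.NineVertices
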